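import Pool.Agent.H607.CF.Main
import Mathlib

/-!
# Comparison of denominators, growth of the denominators of non-Liouville numbers
-/

set_option autoImplicit false

namespace Pool.Agent.H607.CN

open Finset Filter Topology
open Pool.Agent.H607.CF

lemma Qd_update_le {c : ℕ → ℤ} (hc : Ok c) (m : ℕ) (A : ℤ) (hA : 1 ≤ A) (n : ℕ) :
    Qd (Function.update c (m + 1) A) n ≤ (A + 1) * Qd c n := by
  set c' := Function.update c (m + 1) A with hc'
  have hok : Ok c' := hc.update _ A hA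
  have key : ∀ n, Qd c' n ≤ (A + 1) * Qd c n ∧ Qd c' (n + 1) ≤ (A + 1) * Qd c (n + 1) := by
    intro n
    induction n with
    | zero =>
      simp only [Qd]
      constructor
      · simp
      · linarith
    | succ n ih =>
      refine ⟨ih.2, ?_⟩
      rw [show n + 1 + 1 = n + 2 by ring, Qd, Qd]
      by_cases h : n = m
      · subst h
        have e1 : c' (n + 1) = A := by rw [hc', Function.update_self]
        have e2 : ∀ j ≤ n + 1, Qd c' j = Qd c j := Qd_congr (n + 1) fun j hj => by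
          rw [hc', Function.update_of_ne (by omega)]
        rw [e1, e2 (n + 1) le_rfl, e2 n (by omega)]
        have h1 := Qd_le_succ hc n
        have h2 := (Qd_pos hc n).1
        have h3 := (Qd_pos hc n).2
        have h4 := hc n
        nlinarith [mul_le_mul_of_nonneg_right h4 (show (0 : ℤ) ≤ (A + 1) * Qd c (n + 1) by nlinarith)]
      · have e1 : c' (n + 1) = c (n + 1) := by rw [hc', Function.update_of_ne (by omega)]
        rw [e1]
        have h4 := hc n
        have h5 : c (n + 1) * Qd c' (n + 1) ≤ c (n + 1) * ((A + 1) * Qd c (n + 1)) :=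
          mul_le_mul_of_nonneg_left ih.2 (by linarith)
        linarith [ih.1]
  exact (key n).1

lemma lamb_update_le {c : ℕ → ℤ} (hc : Ok c) (m : ℕ) (A : ℤ) (hA : 1 ≤ A) (n : ℕ) :
    lamb (Function.update c (m + 1) A) n ≤ lamb c n + 2 * Real.log ((A : ℝ) + 1) := by
  have h1 := Qd_update_le hc m A hA (n + 1)
  have h2 : (1 : ℝ) ≤ Qd c (n + 1) := by exact_mod_cast (Qd_pos hc n).1
  have h3 : (1 : ℝ) ≤ Qd (Function.update c (m + 1) A) (n + 1) := by
    exact_mod_cast (Qd_pos (hc.update _ A hA) n).1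
  have h4 : (Qd (Function.update c (m + 1) A) (n + 1) : ℝ) ≤ ((A : ℝ) + 1) * Qd c (n + 1) := by
    exact_mod_cast h1
  have h5 : (1 : ℝ) ≤ A := by exact_mod_cast hA
  unfold lamb
  have h6 := Real.log_le_log (by linarith) h4
  rw [Real.log_mul (by linarith) (by linarith)] at h6
  linarith

lemma lamb_le_update {c : ℕ → ℤ} (hc : Ok c) (m : ℕ) (A : ℤ) (hA : 1 ≤ A) (n : ℕ) :
    lamb c n ≤ lamb (Function.update c (m + 1) A) n + 2 * Real.log ((c (m + 1) : ℝ) + 1) := by
  have h := lamb_update_le (hc.update (m + 1) A hA) m (c (m + 1)) (hc m) n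
  rwa [Function.update_idem, Function.update_eq_self] at h

lemma log_quot_le {c : ℕ → ℤ} (hc : Ok c) (m : ℕ) :
    2 * Real.log ((c (m + 1) : ℝ) + 1) ≤ lamb c (m + 1) + 2 := by
  have h1 : c (m + 1) ≤ Qd c (m + 2) := by
    rw [Qd]
    have h2 := (Qd_pos hc m).1
    have h3 := (Qd_pos hc m).2
    have h4 := hc m
    nlinarith
  have h2 : (1 : ℝ) ≤ c (m + 1) := by exact_mod_cast hc m
  have h3 : (c (m + 1) : ℝ) ≤ Qd c (m + 2) := by exact_mod_cast h1
  have h4 : Real.log ((c (m + 1) : ℝ) + 1) ≤ Real.log 2 + Real.log (Qd c (m + 2)) := by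
    rw [← Real.log_mul (by norm_num) (by linarith)]
    exact Real.log_le_log (by linarith) (by linarith)
  have h5 := Real.log_two_lt_d9
  unfold lamb
  rw [show m + 1 + 1 = m + 2 by ring]
  linarith

lemma lamb_mono {c : ℕ → ℤ} (hc : Ok c) : Monotone (lamb c) := by
  intro m n h
  unfold lamb
  have h1 : (1 : ℝ) ≤ Qd c (m + 1) := by exact_mod_cast (Qd_pos hc m).1
  have h2 : (Qd c (m + 1) : ℝ) ≤ Qd c (n + 1) := by exact_mod_cast Qd_mono hc (by omega)
  have := Real.log_le_log (by linarith) h2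
  linarith

/-- growth condition -/
def Gr (κ : ℝ) (a : ℕ → ℤ) : Prop := ∀ n, lamb a (n + 1) ≤ κ * (lamb a n + 1)

/-- the denominators of a non-Liouville number do not grow too fast -/
theorem gr_of_not_liouville {x : ℝ} (hx : Irrational x) (hL : ¬ Liouville x) :
    ∃ κ : ℝ, 1 ≤ κ ∧ Gr κ (pq x) := by
  unfold Liouville at hL
  push Not at hL
  obtain ⟨k, hk⟩ := hL
  have hv := isVal_of_irrational hx
  have hc := hv.ok
  set c := pq x with hcdef
  have hk0 : (0 : ℝ) ≤ k := Nat.cast_nonneg k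
  refine ⟨2 * k + 2, by linarith, ?_⟩
  intro n
  have hln := lamb_nonneg hc n
  have hQ1 : (1 : ℝ) ≤ Qd c (n + 1) := by exact_mod_cast (Qd_pos hc n).1
  have hQ2 : (1 : ℝ) ≤ Qd c (n + 2) := by exact_mod_cast (Qd_pos hc (n + 1)).1
  have hne : x ≠ ((2 * Pd c (n + 1) : ℤ) : ℝ) / ((2 * Qd c (n + 1) : ℤ) : ℝ) := by
    intro h
    exact hx.ne_rat (((2 * Pd c (n + 1) : ℤ) : ℚ) / ((2 * Qd c (n + 1) : ℤ) : ℚ)) (by
      rw [h]
      push_cast
      rfl)
  have h1 := hk (2 * Pd c (n + 1)) (2 * Qd c (n + 1)) (by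
    have := (Qd_pos hc n).1
    omega) hne
  have e0 : ((2 * Pd c (n + 1) : ℤ) : ℝ) / ((2 * Qd c (n + 1) : ℤ) : ℝ) =
      (Pd c (n + 1) : ℝ) / (Qd c (n + 1) : ℝ) := by
    push_cast
    rw [mul_div_mul_left _ _ (by norm_num)]
  rw [e0] at h1
  have ht : 1 < cq x (n + 1) := (hv n).2
  have h2 : |x - (Pd c (n + 1) : ℝ) / (Qd c (n + 1) : ℝ)| ≤ 1 / ((Qd c (n + 1) : ℝ) * cq x (n + 1)) := by
    have happ := hv.approx n
    have hcq : cq x 0 = x := rfl
    rw [hcq] at happ
    have hq0 : (0 : ℝ) ≤ Qd c n := by exact_mod_cast (Qd_pos hc n).2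
    have e1 : x - (Pd c (n + 1) : ℝ) / (Qd c (n + 1) : ℝ) =
        -((-1) ^ (n + 1) / ((Qd c (n + 1) : ℝ) ^ 2 * (cq x (n + 1) + Qd c n / Qd c (n + 1)))) := by
      linarith
    have hpos : (0 : ℝ) < (Qd c (n + 1) : ℝ) ^ 2 * (cq x (n + 1) + Qd c n / Qd c (n + 1)) := by
      positivity
    rw [e1, abs_neg, abs_div, abs_pow, abs_neg, abs_one, one_pow, abs_of_pos hpos]
    apply one_div_le_one_div_of_le (by positivity)
    have h3 : (0 : ℝ) ≤ Qd c n / Qd c (n + 1) := by positivity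
    nlinarith [mul_nonneg (sub_nonneg.2 hQ1) (show (0 : ℝ) ≤ Qd c (n + 1) * cq x (n + 1) by positivity)]
  have h3 : (Qd c (n + 1) : ℝ) * cq x (n + 1) ≤ (2 * (Qd c (n + 1) : ℝ)) ^ k := by
    have h4 := h1.trans h2
    push_cast at h4
    rwa [one_div_le_one_div (by positivity) (by positivity)] at h4
  have h4 : (Qd c (n + 2) : ℝ) ≤ (2 * (Qd c (n + 1) : ℝ)) ^ k * 2 := by
    rw [Qd]
    push_cast
    have h5 : (c (n + 1) : ℝ) ≤ cq x (n + 1) := Int.floor_le _
    have h6 : (Qd c n : ℝ) ≤ Qd c (n + 1) := by exact_mod_cast Qd_le_succ hc n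
    nlinarith [mul_le_mul_of_nonneg_right h5 (show (0 : ℝ) ≤ Qd c (n + 1) by linarith),
      mul_nonneg (show (0 : ℝ) ≤ Qd c (n + 1) by linarith) (sub_nonneg.2 ht.le)]
  have h5 := Real.log_le_log (by linarith) h4
  rw [Real.log_mul (by positivity) (by norm_num), Real.log_pow,
    Real.log_mul (by norm_num) (by linarith)] at h5
  have h6 : lamb c (n + 1) ≤ k * lamb c n + 2 * (k + 1) * Real.log 2 := by
    unfold lamb
    rw [show n + 1 + 1 = n + 2 by ring]
    linarith
  have h13 := Real.log_two_lt_d9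
  have h14 : 2 * ((k : ℝ) + 1) * Real.log 2 ≤ 2 * (k + 1) * 1 := by
    apply mul_le_mul_of_nonneg_left (by linarith) (by positivity)
  nlinarith [mul_nonneg hk0 hln]

/-- exponential bound -/
lemma Gr.le_pow {κ : ℝ} (hκ : 1 ≤ κ) {a : ℕ → ℤ} (h : Gr κ a) (n : ℕ) :
    lamb a n ≤ (κ + 1) ^ n := by
  have h0 : lamb a 0 = 0 := by
    unfold lamb
    simp [Qd]
  have key : ∀ n, lamb a n + 1 ≤ (κ + 1) ^ n := by
    intro n
    induction n with
    | zero => rw [h0]; simp
    | succ n ih =>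
      have h1 := h n
      have h2 : (1 : ℝ) ≤ (κ + 1) ^ n := one_le_pow₀ (by linarith)
      have h3 : κ * (lamb a n + 1) ≤ κ * (κ + 1) ^ n := mul_le_mul_of_nonneg_left ih (by linarith)
      rw [pow_succ]
      nlinarith
  linarith [key n]

end Pool.Agent.H607.CN
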