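import Pool.Agent.H607.CN.Freq2
import Mathlib

/-!
# Few partial quotients of a non-Liouville number changed: the main theorem
-/

set_option autoImplicit false

namespace Pool.Agent.H607.CN

open Finset Filter Topology
open Pool.Agent.H607.CF
open Pool.Agent.Helper478.Surds (EquiW)

/-- counting the indices of the changed places -/
lemma count_le {m : ℕ → ℕ} {N : ℕ} {g T : ℝ} (hg : 0 < g) (hT : 0 ≤ T)
    (h : ∀ i, m i + 1 < N → (i : ℝ) * g ≤ T) {P : Set ℕ} (hP : P ⊆ {n : ℕ | ∃ i, n = m i + 1 ∧ n < N}) :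
    ((P.ncard : ℕ) : ℝ) ≤ T / g + 1 := by
  set I := ⌊T / g⌋₊ with hI
  have hsub2 : P ⊆ ((range (I + 1)).image fun i => m i + 1 : Finset ℕ) := by
    intro n hn
    obtain ⟨i, hi, hn⟩ := hP hn
    rw [coe_image, Set.mem_image]
    refine ⟨i, ?_, hi.symm⟩
    rw [mem_coe, mem_range, Nat.lt_succ_iff]
    apply Nat.le_floor
    rw [le_div_iff₀ hg]
    exact h i (by omega)
  have hcard : P.ncard ≤ I + 1 := by
    calc P.ncard ≤ (((range (I + 1)).image fun i => m i + 1 : Finset ℕ) : Set ℕ).ncard :=
          Set.ncard_le_ncard hsub2 (Finset.finite_toSet _)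
      _ = ((range (I + 1)).image fun i => m i + 1).card := Set.ncard_coe_finset _
      _ ≤ (range (I + 1)).card := card_image_le
      _ = I + 1 := card_range _
  have hIle : (I : ℝ) ≤ T / g := Nat.floor_le (by positivity)
  calc ((P.ncard : ℕ) : ℝ) ≤ ((I + 1 : ℕ) : ℝ) := by exact_mod_cast hcard
    _ = I + 1 := by push_cast; ring
    _ ≤ _ := by linarith

theorem main : ∃ C : ℝ, 0 < C ∧ ∀ x : ℝ, Irrational x → ¬ Liouville x → ∀ M : ℕ,
    ∃ y : ℝ, (∀ n < M, pq y n = pq x n) ∧
      (∀ N : ℕ, 2 ≤ N → (({n : ℕ | n < N ∧ pq y n ≠ pq x n}).ncard : ℝ) ≤ C * Real.log N) ∧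
      (∀ N : ℕ, 16 ≤ Qd (pq x) (N + 1) → (({n : ℕ | n < N ∧ pq y n ≠ pq x n}).ncard : ℝ) ≤
        C * Real.log (Real.log (Real.log (Qd (pq x) (N + 1))))) ∧
      ∀ r : ℕ, 2 ≤ r → ∀ α β : ℝ, 0 ≤ α → α < β → β ≤ 1 →
        Tendsto (fun N : ℕ => cnt (pos r y α β) 0 N / N) atTop (𝓝 (β - α)) := by
  obtain ⟨γ, hγ0, hγ1, hst⟩ := stage
  have hlg : 0 < Real.log (1 + γ / 8) := Real.log_pos (by linarith)
  set g := Real.log (1 + γ / 8) with hgdef
  refine ⟨2 / g + 1, by positivity, fun x hx hxl M => ?_⟩
  obtain ⟨κ, hκ, hG⟩ := gr_of_not_liouville hx hxl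
  set a := pq x with ha_def
  have hok : Ok a := (isVal_of_irrational hx).ok
  obtain ⟨L₀, hT⟩ := exists_thr (κ := κ) hγ0 hγ1
  set m₀ := max (max M 2) (max ⌈Real.log (2 * (κ + 1))⌉₊ (2 * ⌈max L₀ 40⌉₊ + 2)) with hm₀
  have hM : M ≤ m₀ := (le_max_left _ _).trans (le_max_left _ _)
  have h2m : 2 ≤ m₀ := (le_max_right _ _).trans (le_max_left _ _)
  have hm1 : ⌈Real.log (2 * (κ + 1))⌉₊ ≤ m₀ := (le_max_left _ _).trans (le_max_right _ _)
  have hmL : 2 * ⌈max L₀ 40⌉₊ + 2 ≤ m₀ := (le_max_right _ _).trans (le_max_right _ _)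
  obtain ⟨D⟩ := exists_data γ a hok m₀
  have h00 : max L₀ 40 ≤ D.lam 0 := by
    have h1 := lamb_ge (D.ok 0) (D.m 0)
    rw [D.m0] at h1
    have h2 : max L₀ 40 ≤ (⌈max L₀ 40⌉₊ : ℝ) := Nat.le_ceil _
    have h3 : 2 * (⌈max L₀ 40⌉₊ : ℝ) + 2 ≤ m₀ := by exact_mod_cast hmL
    change _ ≤ lamb (D.c 0) (D.m 0)
    rw [D.m0]
    linarith
  have h0 : L₀ ≤ D.lam 0 := (le_max_left _ _).trans h00
  have hall := D.all hT hκ hγ0 hok hG h0
  have hstep := D.all_step hT hκ hγ0 hok hG h0
  have hL3 := hT.three
  have hpos : ∀ i, 1 ≤ D.lam i := fun i => by have := (hall i).1; linarith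
  have S : Scales γ D.lam := ⟨hpos, fun i => by
    have h1 := (hstep i).1
    have h2 := hpos i
    nlinarith, fun i => (hstep i).2.1⟩
  -- the limit
  set cl := lim D.c with hcl
  have hokl : Ok cl := fun n => D.ok _ n
  obtain ⟨t, ht⟩ := exists_val cl hokl
  set y := V cl with hy
  have hyt : y = t 0 := ht.V_eq
  have hpq : ∀ n, pq y n = cl n := by
    intro n
    rw [hyt]
    exact ht.pq_eq n
  have hcleq : ∀ i j, j ≤ D.m i → cl j = D.c i j := fun i j hj => lim_eq D.upd D.mono i j hj
  have hsame : ∀ n, (∀ i, n ≠ D.m i + 1) → cl n = a n := by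
    intro n hn
    exact orig D.upd a D.c0 n (n + 1) fun i _ => hn i
  have hm0le : ∀ i, m₀ ≤ D.m i := by
    intro i
    have := D.mono.monotone (Nat.zero_le i)
    rwa [D.m0] at this
  have hsub : ∀ N : ℕ, {n : ℕ | n < N ∧ pq y n ≠ a n} ⊆ {n : ℕ | ∃ i, n = D.m i + 1 ∧ n < N} := by
    intro N
    rintro n ⟨h1, h2⟩
    rw [hpq] at h2
    by_contra h3
    apply h2
    apply hsame
    intro i hi
    exact h3 ⟨i, hi, h1⟩
  have hsmall : ∀ N : ℕ, N ≤ m₀ + 1 → {n : ℕ | n < N ∧ pq y n ≠ a n} = ∅ := by
    intro N hN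
    apply Set.eq_empty_of_subset_empty
    refine (hsub N).trans ?_
    rintro n ⟨i, hi, hn⟩
    have := hm0le i
    omega
  have hidx0 : ∀ i, (1 + γ / 8) ^ i ≤ Real.log (2 * lamb a (D.m i)) := by
    intro i
    have h1 := D.log_lam hT hκ hγ0 hok hG h0 i
    have h2 := D.lam_le hT hκ hγ0 hok hG h0 i
    have h3 := hpos i
    exact h1.trans (Real.log_le_log (by linarith) h2)
  have hcard0 : ∀ N : ℕ, N ≤ m₀ + 1 → (({n : ℕ | n < N ∧ pq y n ≠ a n}).ncard : ℝ) = 0 := by
    intro N hN
    rw [hsmall N hN, Set.ncard_empty, Nat.cast_zero]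
  refine ⟨y, ?_, ?_, ?_, ?_⟩
  · intro n hn
    rw [hpq, hsame]
    intro i
    have := hm0le i
    omega
  · intro N hN
    have hN2 : (2 : ℝ) ≤ N := by exact_mod_cast hN
    by_cases hs : N ≤ m₀ + 1
    · rw [hcard0 N hs]
      have := Real.log_nonneg (show (1 : ℝ) ≤ N by linarith)
      positivity
    push Not at hs
    have hN4 : (3 : ℝ) ≤ N := by exact_mod_cast (by omega : 3 ≤ N)
    have hlogN : 1 ≤ Real.log N := by
      rw [Real.le_log_iff_exp_le (by linarith)]
      have h1 := Real.exp_one_lt_d9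
      linarith
    have h1 := count_le (m := D.m) (N := N) (g := g) (T := 2 * Real.log N) hlg (by positivity) (by
      intro i hi
      have h1 := hidx0 i
      have h2 := hG.le_pow hκ (D.m i)
      have h3 : 0 < 2 * lamb a (D.m i) := by
        have h4 := D.lam_le hT hκ hγ0 hok hG h0 i
        have := hpos i
        linarith
      have h4 : Real.log (2 * lamb a (D.m i)) ≤ (N : ℝ) ^ 2 := by
        calc Real.log (2 * lamb a (D.m i)) ≤ Real.log (2 * (κ + 1) ^ (D.m i)) :=
              Real.log_le_log h3 (by linarith)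
          _ = Real.log 2 + D.m i * Real.log (κ + 1) := by
              rw [Real.log_mul (by norm_num) (by positivity), Real.log_pow]
          _ ≤ (D.m i + 1) * Real.log (2 * (κ + 1)) := by
              rw [Real.log_mul (by norm_num) (by positivity)]
              have e1 : 0 ≤ Real.log 2 := Real.log_nonneg (by norm_num)
              have e2 : 0 ≤ Real.log (κ + 1) := Real.log_nonneg (by linarith)
              have e3 : (0 : ℝ) ≤ D.m i := Nat.cast_nonneg _
              nlinarith [mul_nonneg e3 e1]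
          _ ≤ (D.m i + 1) * m₀ := by
              apply mul_le_mul_of_nonneg_left _ (by positivity)
              exact (Nat.le_ceil _).trans (by exact_mod_cast hm1)
          _ ≤ N * N := by
              have e1 : ((D.m i : ℝ) + 1) ≤ N := by exact_mod_cast hi.le
              have e2 : (m₀ : ℝ) ≤ N := by exact_mod_cast (by omega : m₀ ≤ N)
              gcongr
          _ = (N : ℝ) ^ 2 := by ring
      have h5 := Real.log_le_log (by positivity) (h1.trans h4)
      rw [Real.log_pow, Real.log_pow] at h5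
      push_cast at h5
      linarith) (hsub N)
    calc (({n : ℕ | n < N ∧ pq y n ≠ a n}).ncard : ℝ) ≤ 2 * Real.log N / g + 1 := h1
      _ ≤ 2 * Real.log N / g + Real.log N := by linarith
      _ = (2 / g + 1) * Real.log N := by ring
  · intro N hN
    have hQ16 : (16 : ℝ) ≤ Qd a (N + 1) := by exact_mod_cast hN
    set Q := (Qd a (N + 1) : ℝ) with hQdef
    have hlog2 := Real.log_two_gt_d9
    have hlogQ : 2.76 ≤ Real.log Q := by
      have h1 := Real.log_le_log (by norm_num) hQ16
      have h2 : Real.log 16 = 4 * Real.log 2 := by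
        rw [show (16 : ℝ) = 2 ^ 4 by norm_num, Real.log_pow]
        norm_num
      linarith
    have hLL : 1 ≤ Real.log (Real.log Q) := by
      rw [Real.le_log_iff_exp_le (by linarith)]
      have h1 := Real.exp_one_lt_d9
      linarith
    by_cases hs : N ≤ m₀ + 1
    · rw [hcard0 N hs]
      have := Real.log_nonneg hLL
      positivity
    push Not at hs
    set τ := Real.log (Real.log Q) with hτ
    -- `log Q ≥ 20`
    have hlogQ20 : 20 ≤ Real.log Q := by
      have h1 := D.le_S 0 m₀
      have h2 : lamb (D.c 0) m₀ = D.lam 0 := by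
        unfold Data.lam
        rw [D.m0]
      rw [D.c0] at h2
      have h3 : (40 : ℝ) ≤ lamb a m₀ := by
        rw [h2]
        exact (le_max_right _ _).trans h00
      have h4 := lamb_mono hok (show m₀ ≤ N by omega)
      have h5 : lamb a N = 2 * Real.log Q := rfl
      linarith
    have hτ3 : 2.72 ≤ τ := by
      rw [hτ, Real.le_log_iff_exp_le (by linarith)]
      have h1 := Real.exp_one_lt_d9
      have h2 : Real.exp 2.72 ≤ Real.exp 1 ^ 3 := by
        rw [← Real.exp_nat_mul]
        apply Real.exp_le_exp.2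
        norm_num
      have h3 : Real.exp 2.72 < 20 := by
        have h4 : Real.exp 2.72 = Real.exp 1 ^ 2 * Real.exp 0.72 := by
          rw [← Real.exp_nat_mul, ← Real.exp_add]
          norm_num
        have h5 : Real.exp 1 ^ 2 < 2.7183 ^ 2 := by
          have := Real.exp_pos 1
          gcongr
          linarith
        have h6 : Real.exp 0.72 < 2.1 := by
          have h7 : Real.exp 0.72 = Real.exp 1 * Real.exp (-0.28) := by
            rw [← Real.exp_add]; norm_num
          have h8 : Real.exp (-0.28) ≤ 1 / (1 + 0.28 + 0.28 ^ 2 / 2) := by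
            rw [Real.exp_neg, ← one_div]
            apply one_div_le_one_div_of_le (by norm_num)
            exact Real.quadratic_le_exp_of_nonneg (by norm_num)
          rw [h7]
          have h9 : (0 : ℝ) < Real.exp (-0.28) := Real.exp_pos _
          calc Real.exp 1 * Real.exp (-0.28) ≤ 2.7183 * (1 / (1 + 0.28 + 0.28 ^ 2 / 2)) := by
                gcongr
                linarith
            _ < 2.1 := by norm_num
        rw [h4]
        have h10 : (0 : ℝ) < Real.exp 0.72 := Real.exp_pos _
        calc Real.exp 1 ^ 2 * Real.exp 0.72 ≤ 2.7183 ^ 2 * 2.1 := by gcongr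
          _ < 20 := by norm_num
      linarith
    have hlogτ : 1 ≤ Real.log τ := by
      rw [Real.le_log_iff_exp_le (by linarith)]
      have h1 := Real.exp_one_lt_d9
      linarith
    have h1 := count_le (m := D.m) (N := N) (g := g) (T := 2 * Real.log τ) hlg (by positivity) (by
      intro i hi
      have h1 := hidx0 i
      have h3 : 0 < 2 * lamb a (D.m i) := by
        have h4 := D.lam_le hT hκ hγ0 hok hG h0 i
        have := hpos i
        linarith
      have h4 : Real.log (2 * lamb a (D.m i)) ≤ τ ^ 2 := by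
        have h5 : 2 * lamb a (D.m i) ≤ 4 * Real.log Q := by
          have h6 := lamb_mono hok (show D.m i ≤ N by omega)
          have h7 : lamb a N = 2 * Real.log Q := rfl
          linarith
        have h6 := Real.log_le_log h3 h5
        have e6 : Real.log (4 * Real.log Q) = Real.log 4 + τ :=
          Real.log_mul (by norm_num) (by linarith)
        rw [e6] at h6
        have h7 : Real.log 4 < 1.4 := by
          have h8 : Real.log 4 = 2 * Real.log 2 := by
            rw [show (4 : ℝ) = 2 ^ 2 by norm_num, Real.log_pow]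
            norm_num
          have := Real.log_two_lt_d9
          linarith
        nlinarith
      have h5 := Real.log_le_log (by positivity) (h1.trans h4)
      rw [Real.log_pow, Real.log_pow] at h5
      push_cast at h5
      linarith) (hsub N)
    calc (({n : ℕ | n < N ∧ pq y n ≠ a n}).ncard : ℝ) ≤ 2 * Real.log τ / g + 1 := h1
      _ ≤ 2 * Real.log τ / g + Real.log τ := by linarith
      _ = (2 / g + 1) * Real.log τ := by ring
  · intro r hr α β h1 h2 h3
    apply S.freq hγ0 r hr (pos r y α β) (β - α) (by linarith) (by linarith)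
    intro ε hε
    obtain ⟨K₀, hK₀⟩ := exists_nat_gt (12 / ε)
    set K := max K₀ r with hK
    obtain ⟨Λ, hΛ⟩ := hst K
    have hexp : Tendsto (fun i => Real.exp (-((D.lam i) ^ (1 - γ / 2)))) atTop (𝓝 0) := by
      apply Real.tendsto_exp_neg_atTop_nhds_zero.comp
      exact (tendsto_rpow_atTop (by linarith)).comp S.tends
    have hmin : (0 : ℝ) < min (1 / 2) (ε / 16) := by positivity
    filter_upwards [S.tends.eventually_ge_atTop Λ, eventually_ge_atTop K,
      hexp.eventually_le_const hmin] with i hi1 hi2 hi3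
    have hi3a := hi3.trans (min_le_left _ _)
    have hi3b := hi3.trans (min_le_right _ _)
    -- the new partial quotient is good of order at least `K`
    have hex : ∃ A', GP γ K (D.c i) (D.m i) A' := by
      obtain ⟨A', g1, g2, g3⟩ := hΛ (D.c i) (D.m i) (D.lam i) (hh γ (D.c i) (D.m i)) (D.ok i) rfl rfl hi1
      exact ⟨A', g1, g2, g3⟩
    have hkK : K ≤ D.k i := D.mx i K hi2 hex
    have hgp := (D.gp i).2.2 r hr ((le_max_right _ _).trans hkK)
    intro u v hu hv huv hhv
    have hup := (hstep i).2.2.2.2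
    have hh0 : 0 ≤ (D.lam i) ^ (1 - γ / 2) := Real.rpow_nonneg (D.lam_nonneg i) _
    have hv' : v * Real.log r ≤ lamb (D.c i) (D.m i) + (hh γ (D.c i) (D.m i)) ^ (1 + γ) := by
      change _ ≤ D.lam i + ((D.lam i) ^ (1 - γ / 2)) ^ (1 + γ)
      linarith
    have hE : EquiW (V (Function.update (D.c i) (D.m i + 1) (D.A i))) r u v (1 / ((D.k i : ℝ) + 1)) :=
      hgp u v hu hv' hhv
    rw [← D.upd i] at hE
    obtain ⟨t', ht'⟩ := exists_val (D.c (i + 1)) (D.ok (i + 1))
    have hclose := ht.close ht' (D.m (i + 1)) (fun j hj => hcleq (i + 1) j (by omega))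
    rw [← hyt, ← ht'.V_eq] at hclose
    have hQ : Qd cl (D.m (i + 1) + 1) = Qd (D.c (i + 1)) (D.m (i + 1) + 1) :=
      Qd_congr (D.m (i + 1) + 1) (fun j hj => hcleq (i + 1) j (by omega)) _ le_rfl
    have hQpos : (1 : ℝ) ≤ Qd (D.c (i + 1)) (D.m (i + 1) + 1) := by
      exact_mod_cast (Qd_pos (D.ok (i + 1)) _).1
    have hclose' : |y - V (D.c (i + 1))| ≤ Real.exp (-D.lam (i + 1)) := by
      refine hclose.trans (le_of_eq ?_)
      rw [hQ, Real.exp_neg]
      change _ = (Real.exp (lamb (D.c (i + 1)) (D.m (i + 1))))⁻¹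
      unfold lamb
      rw [two_mul, Real.exp_add, Real.exp_log (by linarith), one_div, sq]
    have hpert := pert (y := y) (η := Real.exp (-((D.lam i) ^ (1 - γ / 2)))) huv hE (by positivity)
      (Real.exp_pos _) hi3a ?_ α β h1 h2 h3
    · refine hpert.trans ?_
      have hvu : (0 : ℝ) ≤ (v : ℝ) - u := by
        have : (u : ℝ) ≤ v := by exact_mod_cast huv
        linarith
      apply mul_le_mul_of_nonneg_right _ hvu
      have h4 : 1 / ((D.k i : ℝ) + 1) ≤ ε / 12 := by
        have h5 : (K₀ : ℝ) ≤ D.k i := by exact_mod_cast (le_max_left _ _).trans hkK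
        rw [div_le_div_iff₀ (by positivity) (by norm_num)]
        rw [div_lt_iff₀ hε] at hK₀
        nlinarith
      linarith
    · intro j hj1 hj2
      have hr0 : (0 : ℝ) < r := by positivity
      rw [abs_mul, abs_of_pos (pow_pos hr0 j)]
      have h4 : (r : ℝ) ^ j = Real.exp (j * Real.log r) := by
        rw [mul_comm, ← Real.rpow_def_of_pos hr0, Real.rpow_natCast]
      rw [h4]
      calc |y - V (D.c (i + 1))| * Real.exp (j * Real.log r) ≤
          Real.exp (-D.lam (i + 1)) * Real.exp (j * Real.log r) := by gcongr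
        _ = Real.exp (-D.lam (i + 1) + j * Real.log r) := (Real.exp_add _ _).symm
        _ ≤ Real.exp (-((D.lam i) ^ (1 - γ / 2))) := by
            apply Real.exp_le_exp.2
            have h5 : (j : ℝ) * Real.log r ≤ v * Real.log r := by
              have : (j : ℝ) ≤ v := by exact_mod_cast hj2
              have := Real.log_nonneg (by exact_mod_cast (by omega : 1 ≤ r) : (1 : ℝ) ≤ r)
              gcongr
            linarith

end Pool.Agent.H607.CN
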