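import Pool.Agent.H607.CN.Grow
import Mathlib

/-!
# Frequencies from windows which end at the next scale
-/

set_option autoImplicit false

namespace Pool.Agent.H607.CN

open Finset Filter Topology
open Pool.Agent.H607.CF

/-- the asymptotic properties of the scales -/
structure Scales (γ : ℝ) (lam : ℕ → ℝ) : Prop where
  pos : ∀ i, 1 ≤ lam i
  geom : ∀ i, 20 * lam i ≤ lam (i + 1)
  pw : ∀ i, (lam i) ^ (1 + γ / 8) ≤ lam (i + 1)

variable {γ : ℝ} {lam : ℕ → ℝ}

lemma Scales.tends (S : Scales γ lam) : Tendsto lam atTop atTop := by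
  have h : ∀ i : ℕ, (i : ℝ) ≤ lam i := by
    intro i
    induction i with
    | zero => have := S.pos 0; push_cast; linarith
    | succ i ih =>
      have := S.geom i
      have := S.pos i
      push_cast
      linarith
  exact tendsto_atTop_mono h tendsto_natCast_atTop_atTop

lemma Scales.h_le (S : Scales γ lam) (hγ0 : 0 < γ) (i : ℕ) : (lam i) ^ (1 - γ / 2) ≤ lam i := by
  have h1 := S.pos i
  calc (lam i) ^ (1 - γ / 2) ≤ (lam i) ^ (1 : ℝ) := Real.rpow_le_rpow_of_exponent_le h1 (by linarith)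
    _ = lam i := Real.rpow_one _

lemma Scales.h_small (S : Scales γ lam) (hγ0 : 0 < γ) :
    Tendsto (fun i => (lam i) ^ (1 - γ / 2) / lam i) atTop (𝓝 0) := by
  have h1 : Tendsto (fun i => (lam i) ^ (-(γ / 2))) atTop (𝓝 0) :=
    (tendsto_rpow_neg_atTop (by positivity)).comp S.tends
  refine h1.congr fun i => ?_
  have h2 : (0 : ℝ) < lam i := by have := S.pos i; linarith
  rw [sub_eq_add_neg, Real.rpow_add h2, Real.rpow_one, mul_div_assoc, mul_comm, div_mul_cancel₀]
  exact h2.ne'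

lemma Scales.ratio (S : Scales γ lam) (hγ0 : 0 < γ) :
    Tendsto (fun i => lam i / lam (i + 1)) atTop (𝓝 0) := by
  have h1 : Tendsto (fun i => (lam i) ^ (-(γ / 8))) atTop (𝓝 0) :=
    (tendsto_rpow_neg_atTop (by positivity)).comp S.tends
  refine squeeze_zero (fun i => ?_) (fun i => ?_) h1
  · have := S.pos i
    have := S.pos (i + 1)
    positivity
  · have h2 : (0 : ℝ) < lam i := by have := S.pos i; linarith
    have h3 : (0 : ℝ) < lam (i + 1) := by have := S.pos (i + 1); linarith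
    rw [div_le_iff₀ h3]
    have h4 := S.pw i
    have h6 : lam i = (lam i) ^ (-(γ / 8)) * (lam i) ^ (1 + γ / 8) := by
      rw [← Real.rpow_add h2]
      rw [show -(γ / 8) + (1 + γ / 8) = 1 by ring, Real.rpow_one]
    calc lam i = (lam i) ^ (-(γ / 8)) * (lam i) ^ (1 + γ / 8) := h6
      _ ≤ (lam i) ^ (-(γ / 8)) * lam (i + 1) := by gcongr

/-- frequencies from the good windows of all scales -/
theorem Scales.freq (S : Scales γ lam) (hγ0 : 0 < γ) (r : ℕ) (hr : 2 ≤ r)
    (P : Set ℕ) (ρ : ℝ) (hρ0 : 0 ≤ ρ) (hρ1 : ρ ≤ 1)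
    (hw : ∀ ε : ℝ, 0 < ε → ∀ᶠ i in atTop, ∀ u v : ℕ,
      lam i + 4 * (lam i) ^ (1 - γ / 2) ≤ u * Real.log r →
      v * Real.log r ≤ lam (i + 1) - (lam i) ^ (1 - γ / 2) → u ≤ v →
      (lam i) ^ (1 - γ / 2) ≤ (v : ℝ) - u → dev P ρ u v ≤ ε * ((v : ℝ) - u)) :
    Tendsto (fun N : ℕ => cnt P 0 N / N) atTop (𝓝 ρ) := by
  have hl : 0 < Real.log r := Real.log_pos (by exact_mod_cast hr)
  set l := Real.log r with hldef
  set h : ℕ → ℝ := fun i => (lam i) ^ (1 - γ / 2) with hh
  have hpos : ∀ i, 0 < lam i := fun i => by have := S.pos i; linarith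
  have hh0 : ∀ i, 0 ≤ h i := fun i => Real.rpow_nonneg (hpos i).le _
  have hge : ∀ i, 20 * lam i ≤ lam (i + 1) := S.geom
  have hhl : ∀ i, h i ≤ lam i := fun i => S.h_le hγ0 i
  have hX1 : ∀ i, (lam i + 4 * h i) / l ≤ (⌈(lam i + 4 * h i) / l⌉₊ : ℝ) := fun i => Nat.le_ceil _
  have hX2 : ∀ i, (⌈(lam i + 4 * h i) / l⌉₊ : ℝ) ≤ (lam i + 4 * h i) / l + 1 := fun i =>
    (Nat.ceil_lt_add_one (by have := hh0 i; have := hpos i; positivity)).le
  have hnn : ∀ i, 0 ≤ lam (i + 1) - h i := fun i => by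
    have := hge i
    have := hhl i
    have := hpos i
    linarith
  have hY1 : ∀ i, (⌊(lam (i + 1) - h i) / l⌋₊ : ℝ) ≤ (lam (i + 1) - h i) / l := fun i =>
    Nat.floor_le (div_nonneg (hnn i) hl.le)
  have hY2 : ∀ i, (lam (i + 1) - h i) / l - 1 ≤ (⌊(lam (i + 1) - h i) / l⌋₊ : ℝ) := fun i =>
    (Nat.sub_one_lt_floor _).le
  have hlamt := S.tends
  have hBpos : ∀ i, lam i / l ≤ (⌈(lam i + 4 * h i) / l⌉₊ : ℝ) := fun i => by
    refine le_trans ?_ (hX1 i)
    have := hh0 i
    gcongr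
    linarith
  have hEB : ∀ i, (⌊(lam (i + 1) - h i) / l⌋₊ : ℝ) ≤ (⌈(lam (i + 1) + 4 * h (i + 1)) / l⌉₊ : ℝ) := by
    intro i
    refine (hY1 i).trans (le_trans ?_ (hX1 (i + 1)))
    have := hh0 (i + 1)
    have := hh0 i
    exact div_le_div_of_nonneg_right (by linarith) hl.le
  refine freq_of_windows P ρ hρ0 hρ1 (fun i => ⌈(lam i + 4 * h i) / l⌉₊)
    (fun i => ⌊(lam (i + 1) - h i) / l⌋₊) h ?_ ?_ ?_ ?_ ?_ ?_ ?_
  · filter_upwards [hlamt.eventually_ge_atTop l] with i hi
    have h1 : (⌈(lam i + 4 * h i) / l⌉₊ : ℝ) ≤ (⌊(lam (i + 1) - h i) / l⌋₊ : ℝ) := by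
      refine (hX2 i).trans (le_trans ?_ (hY2 i))
      have h2 : (lam (i + 1) - h i) / l = (lam i + 4 * h i) / l + (lam (i + 1) - lam i - 5 * h i) / l := by ring
      have h3 : 2 ≤ (lam (i + 1) - lam i - 5 * h i) / l := by
        rw [le_div_iff₀ hl]
        have := hge i
        have := hhl i
        linarith
      linarith
    exact_mod_cast h1
  · refine Eventually.of_forall fun i => ?_
    exact_mod_cast hEB i
  · have h1 : Tendsto (fun i => lam i / l) atTop atTop := hlamt.atTop_div_const hl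
    have h2 : Tendsto (fun i => (⌈(lam i + 4 * h i) / l⌉₊ : ℝ)) atTop atTop := tendsto_atTop_mono hBpos h1
    exact tendsto_natCast_atTop_iff.1 h2
  · have h1 : Tendsto (fun i => 5 * (lam i / lam (i + 1)) + l * (lam (i + 1))⁻¹) atTop (𝓝 (5 * 0 + l * 0)) := by
      refine ((S.ratio hγ0).const_mul 5).add (Tendsto.const_mul l ?_)
      exact tendsto_inv_atTop_zero.comp (hlamt.comp (tendsto_add_atTop_nat 1))
    simp only [mul_zero, add_zero] at h1
    refine squeeze_zero (fun i => by positivity) (fun i => ?_) h1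
    have h2 := hBpos (i + 1)
    have h3 : 0 < lam (i + 1) / l := by have := hpos (i + 1); positivity
    calc (⌈(lam i + 4 * h i) / l⌉₊ : ℝ) / (⌈(lam (i + 1) + 4 * h (i + 1)) / l⌉₊ : ℝ) ≤
          ((lam i + 4 * h i) / l + 1) / (lam (i + 1) / l) := by
            gcongr
            · have := hh0 i; have := hpos i; positivity
            · exact hX2 i
      _ ≤ (5 * lam i / l + 1) / (lam (i + 1) / l) := by
          gcongr
          have := hhl i
          linarith
      _ = 5 * (lam i / lam (i + 1)) + l * (lam (i + 1))⁻¹ := by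
          have := (hpos (i + 1)).ne'
          field_simp
  · have h1 : Tendsto (fun i => lam i / lam (i + 1) +
        (4 * (h (i + 1) / lam (i + 1)) + 2 * l * (lam (i + 1))⁻¹)) atTop (𝓝 (0 + (4 * 0 + 2 * l * 0))) := by
      refine (S.ratio hγ0).add (Tendsto.add (Tendsto.const_mul 4 ?_) (Tendsto.const_mul (2 * l) ?_))
      · exact (S.h_small hγ0).comp (tendsto_add_atTop_nat 1)
      · exact tendsto_inv_atTop_zero.comp (hlamt.comp (tendsto_add_atTop_nat 1))
    simp only [mul_zero, add_zero] at h1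
    refine squeeze_zero (fun i => ?_) (fun i => ?_) h1
    · apply div_nonneg _ (Nat.cast_nonneg _)
      have := hEB i
      linarith
    · have h2 := hBpos (i + 1)
      have h3 : 0 < lam (i + 1) / l := by have := hpos (i + 1); positivity
      have h4 : (⌈(lam (i + 1) + 4 * h (i + 1)) / l⌉₊ : ℝ) - (⌊(lam (i + 1) - h i) / l⌋₊ : ℝ) ≤
          (lam i + 4 * h (i + 1)) / l + 2 := by
        have := hX2 (i + 1)
        have := hY2 i
        have e1 : (h i + 4 * h (i + 1)) / l =
          (lam (i + 1) + 4 * h (i + 1)) / l - (lam (i + 1) - h i) / l := by ring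
        have e2 : (h i + 4 * h (i + 1)) / l ≤ (lam i + 4 * h (i + 1)) / l := by
          apply div_le_div_of_nonneg_right _ hl.le
          have := hhl i
          linarith
        linarith
      have h5 : 0 ≤ (lam i + 4 * h (i + 1)) / l + 2 := by
        have := hh0 (i + 1)
        have := hpos i
        positivity
      calc ((⌈(lam (i + 1) + 4 * h (i + 1)) / l⌉₊ : ℝ) - (⌊(lam (i + 1) - h i) / l⌋₊ : ℝ)) /
            (⌈(lam (i + 1) + 4 * h (i + 1)) / l⌉₊ : ℝ) ≤
            ((lam i + 4 * h (i + 1)) / l + 2) / (lam (i + 1) / l) := by gcongr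
        _ = lam i / lam (i + 1) +
            (4 * (h (i + 1) / lam (i + 1)) + 2 * l * (lam (i + 1))⁻¹) := by
          have := (hpos (i + 1)).ne'
          field_simp
          ring
  · have h1 : Tendsto (fun i => l * (h i / lam i)) atTop (𝓝 (l * 0)) := (S.h_small hγ0).const_mul l
    rw [mul_zero] at h1
    refine squeeze_zero (fun i => by have := hh0 i; positivity) (fun i => ?_) h1
    have h2 := hBpos i
    have h3 : 0 < lam i / l := by have := hpos i; positivity
    calc h i / (⌈(lam i + 4 * h i) / l⌉₊ : ℝ) ≤ h i / (lam i / l) := by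
          have := hh0 i
          gcongr
      _ = l * (h i / lam i) := by
          have := (hpos i).ne'
          field_simp
  · intro ε hε
    filter_upwards [hw ε hε] with i hi u v hu huv hv hhv
    apply hi u v _ _ huv hhv
    · have h1 : (⌈(lam i + 4 * h i) / l⌉₊ : ℝ) ≤ u := by exact_mod_cast hu
      have h2 := (hX1 i).trans h1
      rwa [div_le_iff₀ hl] at h2
    · have h1 : (v : ℝ) ≤ (⌊(lam (i + 1) - h i) / l⌋₊ : ℝ) := by exact_mod_cast hv
      have h2 := h1.trans (hY1 i)
      rwa [le_div_iff₀ hl] at h2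

end Pool.Agent.H607.CN
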