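import Pool.Agent.H607.CN.Comp
import Mathlib

/-!
# The construction for non-Liouville numbers: the next place is the last one inside the window
-/

set_option autoImplicit false

namespace Pool.Agent.H607.CN

open Finset Filter Topology
open Pool.Agent.H607.CF

/-- the end of the window -/
noncomputable def GG (γ : ℝ) (c : ℕ → ℤ) (m : ℕ) : ℝ := lamb c m + (hh γ c m) ^ (1 + γ)

/-- one step of the construction -/
def StepN (γ : ℝ) (i : ℕ) (s s' : (ℕ → ℤ) × ℕ) : Prop :=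
  ∃ (k : ℕ) (A : ℤ), GP γ k s.1 s.2 A ∧ (∀ k', k' ≤ i → (∃ A', GP γ k' s.1 s.2 A') → k' ≤ k) ∧
    s'.1 = Function.update s.1 (s.2 + 1) A ∧ s.2 < s'.2 ∧
    (s'.2 = s.2 + 1 ∨ lamb s'.1 s'.2 ≤ GG γ s.1 s.2) ∧
    GG γ s.1 s.2 < lamb s'.1 (s'.2 + 1)

lemma exists_stepN (γ : ℝ) (i : ℕ) (s : (ℕ → ℤ) × ℕ) (hs : Ok s.1) :
    ∃ s' : (ℕ → ℤ) × ℕ, Ok s'.1 ∧ StepN γ i s s' := by
  classical
  have hl0 := lamb_nonneg hs s.2
  have hh0 : 0 ≤ hh γ s.1 s.2 := Real.rpow_nonneg hl0 _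
  have h0 : ∃ A, GP γ 0 s.1 s.2 A := by
    refine ⟨1, le_rfl, ?_, fun r h1 h2 => by omega⟩
    push_cast
    exact Real.one_le_exp (by linarith)
  set k := Nat.findGreatest (fun k => ∃ A, GP γ k s.1 s.2 A) i with hk
  have hkA : ∃ A, GP γ k s.1 s.2 A :=
    Nat.findGreatest_spec (P := fun k => ∃ A, GP γ k s.1 s.2 A) (Nat.zero_le i) h0
  obtain ⟨A, hA⟩ := hkA
  set c' := Function.update s.1 (s.2 + 1) A with hc'
  have hOk : Ok c' := hs.update _ A hA.1
  have hex : ∃ m', s.2 + 1 < m' ∧ GG γ s.1 s.2 < lamb c' m' :=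
    ((eventually_gt_atTop (s.2 + 1)).and ((lamb_tendsto hOk).eventually_gt_atTop _)).exists
  have hspec := Nat.find_spec hex
  refine ⟨(c', Nat.find hex - 1), hOk, k, A, hA, ?_, rfl, ?_, ?_, ?_⟩
  · intro k' hk' hA'
    exact Nat.le_findGreatest hk' hA'
  · change s.2 < Nat.find hex - 1
    omega
  · change Nat.find hex - 1 = s.2 + 1 ∨ lamb c' (Nat.find hex - 1) ≤ GG γ s.1 s.2
    rcases Nat.lt_or_ge (s.2 + 1) (Nat.find hex - 1) with h | h
    · right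
      have := Nat.find_min hex (show Nat.find hex - 1 < Nat.find hex by omega)
      push Not at this
      exact this h
    · left
      omega
  · change GG γ s.1 s.2 < lamb c' (Nat.find hex - 1 + 1)
    rw [show Nat.find hex - 1 + 1 = Nat.find hex by omega]
    exact hspec.2

/-- the data of the construction -/
structure Data (γ : ℝ) (a : ℕ → ℤ) (m₀ : ℕ) where
  c : ℕ → ℕ → ℤ
  m : ℕ → ℕ
  k : ℕ → ℕ
  A : ℕ → ℤ
  c0 : c 0 = a
  m0 : m 0 = m₀
  ok : ∀ i, Ok (c i)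
  gp : ∀ i, GP γ (k i) (c i) (m i) (A i)
  mx : ∀ i k', k' ≤ i → (∃ A', GP γ k' (c i) (m i) A') → k' ≤ k i
  upd : ∀ i, c (i + 1) = Function.update (c i) (m i + 1) (A i)
  lt : ∀ i, m i < m (i + 1)
  up : ∀ i, m (i + 1) = m i + 1 ∨ lamb (c (i + 1)) (m (i + 1)) ≤ GG γ (c i) (m i)
  nx : ∀ i, GG γ (c i) (m i) < lamb (c (i + 1)) (m (i + 1) + 1)

lemma exists_data (γ : ℝ) (a : ℕ → ℤ) (ha : Ok a) (m₀ : ℕ) : Nonempty (Data γ a m₀) := by
  classical
  choose f hf1 hf2 using fun (i : ℕ) (s : {s : (ℕ → ℤ) × ℕ // Ok s.1}) => exists_stepN γ i s.1 s.2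
  let g : ℕ → {s : (ℕ → ℤ) × ℕ // Ok s.1} := fun n =>
    Nat.rec ⟨(a, m₀), ha⟩ (fun i s => ⟨f i s, hf1 i s⟩) n
  have hs : ∀ i, StepN γ i (g i).1 (g (i + 1)).1 := fun i => hf2 i (g i)
  choose k A hGP hmax hupd hlt hup hnx using hs
  exact ⟨⟨fun i => (g i).1.1, fun i => (g i).1.2, k, A, rfl, rfl, fun i => (g i).2, hGP, hmax, hupd,
    hlt, hup, hnx⟩⟩

/-- all requirements on the size of the first scale -/
structure Thr (γ κ L₀ : ℝ) : Prop where
  three : 3 ≤ L₀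
  hs : ∀ L : ℝ, L₀ ≤ L → 100 * L ^ (1 - γ / 2) + 10 ≤ L
  big : ∀ L : ℝ, L₀ ≤ L → 100 * κ ^ 2 ≤ L ^ (γ / 8)
  pw : ∀ L : ℝ, L₀ ≤ L → L ^ (1 + γ / 4) ≤ (L ^ (1 - γ / 2)) ^ (1 + γ)

lemma exists_thr {γ κ : ℝ} (hγ0 : 0 < γ) (hγ1 : γ ≤ 1 / 20) : ∃ L₀ : ℝ, Thr γ κ L₀ := by
  have h1 := (tendsto_rpow_atTop (show 0 < γ / 8 by positivity)).eventually_ge_atTop (100 * κ ^ 2)
  have h2 := (tendsto_rpow_atTop (show 0 < γ / 2 by positivity)).eventually_ge_atTop (200 : ℝ)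
  obtain ⟨L₁, hL₁⟩ := eventually_atTop.1 (h1.and h2)
  refine ⟨max L₁ 20, ?_, ?_, ?_, ?_⟩
  · exact le_trans (by norm_num) (le_max_right _ _)
  · intro L hL
    have h3 : 20 ≤ L := (le_max_right _ _).trans hL
    have h4 := (hL₁ L ((le_max_left _ _).trans hL)).2
    have h5 : L = L ^ (γ / 2) * L ^ (1 - γ / 2) := by
      rw [← Real.rpow_add (by linarith)]
      rw [show γ / 2 + (1 - γ / 2) = 1 by ring, Real.rpow_one]
    have h6 : 0 ≤ L ^ (1 - γ / 2) := Real.rpow_nonneg (by linarith) _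
    nlinarith
  · intro L hL
    exact (hL₁ L ((le_max_left _ _).trans hL)).1
  · intro L hL
    have h3 : 20 ≤ L := (le_max_right _ _).trans hL
    rw [← Real.rpow_mul (by linarith)]
    exact Real.rpow_le_rpow_of_exponent_le (by linarith) (by nlinarith)

namespace Data

variable {γ : ℝ} {a : ℕ → ℤ} {m₀ : ℕ} (D : Data γ a m₀)

/-- the scale -/
noncomputable def lam (i : ℕ) : ℝ := lamb (D.c i) (D.m i)

lemma mono : StrictMono D.m := strictMono_nat_of_lt_succ D.lt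

lemma hh_eq (i : ℕ) : hh γ (D.c i) (D.m i) = (D.lam i) ^ (1 - γ / 2) := rfl

lemma GG_eq (i : ℕ) : GG γ (D.c i) (D.m i) = D.lam i + ((D.lam i) ^ (1 - γ / 2)) ^ (1 + γ) := rfl

lemma lam_nonneg (i : ℕ) : 0 ≤ D.lam i := lamb_nonneg (D.ok i) _

lemma A_log (i : ℕ) : 2 * Real.log ((D.A i : ℝ) + 1) ≤ 4 * (D.lam i) ^ (1 - γ / 2) + 2 := by
  have h1 := (D.gp i).1
  have h2 := (D.gp i).2.1
  rw [D.hh_eq] at h2
  have h1' : (1 : ℝ) ≤ D.A i := by exact_mod_cast h1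
  have h3 : Real.log ((D.A i : ℝ) + 1) ≤ Real.log 2 + 2 * (D.lam i) ^ (1 - γ / 2) := by
    rw [← Real.log_exp (2 * (D.lam i) ^ (1 - γ / 2)), ← Real.log_mul (by norm_num) (Real.exp_pos _).ne']
    apply Real.log_le_log (by linarith)
    have := Real.one_le_exp (show 0 ≤ 2 * (D.lam i) ^ (1 - γ / 2) by
      have := Real.rpow_nonneg (D.lam_nonneg i) (1 - γ / 2)
      linarith)
    linarith
  have h4 := Real.log_two_lt_d9
  linarith

/-- the sequences agree with `a` off the changed places -/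
lemma orig' (l n : ℕ) (hn : ∀ i < l, n ≠ D.m i + 1) : D.c l n = a n :=
  orig D.upd a D.c0 n l hn

lemma c_self (i : ℕ) : D.c i (D.m i + 1) = a (D.m i + 1) := by
  apply D.orig'
  intro l hl
  have := D.mono hl
  omega

/-- `S`, `R`: the accumulated changes -/
noncomputable def S (i : ℕ) : ℝ := ∑ j ∈ range i, 2 * Real.log ((D.A j : ℝ) + 1)

noncomputable def R (i : ℕ) : ℝ := ∑ j ∈ range i, 2 * Real.log ((a (D.m j + 1) : ℝ) + 1)

lemma le_S (i n : ℕ) : lamb (D.c i) n ≤ lamb a n + D.S i := by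
  induction i with
  | zero => rw [D.c0]; simp [S]
  | succ i ih =>
    have h1 := lamb_update_le (D.ok i) (D.m i) (D.A i) (D.gp i).1 n
    rw [← D.upd i] at h1
    unfold S at ih ⊢
    rw [sum_range_succ]
    linarith

lemma le_R (i n : ℕ) : lamb a n ≤ lamb (D.c i) n + D.R i := by
  induction i with
  | zero => rw [D.c0]; simp [R]
  | succ i ih =>
    have h1 := lamb_le_update (D.ok i) (D.m i) (D.A i) (D.gp i).1 n
    rw [← D.upd i, D.c_self i] at h1
    unfold R at ih ⊢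
    rw [sum_range_succ]
    linarith

variable {κ L₀ : ℝ} (hT : Thr γ κ L₀) (hκ : 1 ≤ κ) (hγ0 : 0 < γ) (ha : Ok a) (hG : Gr κ a)
  (h0 : L₀ ≤ D.lam 0)

include hT hκ hγ0 ha hG

/-- one step of the estimates -/
lemma step (i : ℕ) (hL : L₀ ≤ D.lam i) (hS : D.S i ≤ D.lam i) (hR : D.R i ≤ D.lam i) :
    40 * κ * D.lam i ≤ D.lam (i + 1) ∧ (D.lam i) ^ (1 + γ / 8) ≤ D.lam (i + 1) ∧
      D.S (i + 1) ≤ D.lam (i + 1) / 4 ∧ D.R (i + 1) ≤ D.lam (i + 1) ∧
      D.lam (i + 1) ≤ D.lam i + ((D.lam i) ^ (1 - γ / 2)) ^ (1 + γ) := by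
  set L := D.lam i with hLdef
  have h3 := hT.three
  have hhs := hT.hs L hL
  have hbig := hT.big L hL
  have hpw := hT.pw L hL
  have hL1 : (1 : ℝ) ≤ L := by linarith
  have hLpos : (0 : ℝ) < L := by linarith
  set h := L ^ (1 - γ / 2) with hhdef
  have hh0 : 0 ≤ h := Real.rpow_nonneg hLpos.le _
  -- `G ≥ 100 κ² L^{1+γ/8} ≥ 100 κ² · 100 κ² L`
  have e1 : L ^ (1 + γ / 4) = L ^ (γ / 8) * L ^ (1 + γ / 8) := by
    rw [← Real.rpow_add hLpos]
    congr 1
    ring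
  have e2 : L ^ (1 + γ / 8) = L ^ (γ / 8) * L := by
    rw [← Real.rpow_add_one hLpos.ne']
    congr 1
    ring
  have hP0 : 0 < L ^ (1 + γ / 8) := Real.rpow_pos_of_pos hLpos _
  have hκ2 : κ ≤ κ ^ 2 := by nlinarith
  have hPL : 100 * κ ^ 2 * L ≤ L ^ (1 + γ / 8) := by
    rw [e2]
    exact mul_le_mul_of_nonneg_right hbig hLpos.le
  have hGP : 100 * κ ^ 2 * L ^ (1 + γ / 8) ≤ h ^ (1 + γ) := by
    refine le_trans ?_ hpw
    rw [e1]
    exact mul_le_mul_of_nonneg_right hbig hP0.le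
  have hA := D.A_log i
  rw [← hLdef] at hA
  have hS1 : D.S (i + 1) ≤ L + (4 * h + 2) := by
    unfold S at hS ⊢
    rw [sum_range_succ]
    linarith
  have ham : lamb a (D.m i) ≤ 2 * L := by
    have := D.le_R i (D.m i)
    change _ ≤ L + _ at this
    linarith
  have hR1 : D.R (i + 1) ≤ L + (κ * (2 * L + 1) + 2) := by
    have h4 := log_quot_le ha (D.m i)
    have h5 := hG (D.m i)
    have h6 : κ * (lamb a (D.m i) + 1) ≤ κ * (2 * L + 1) := by gcongr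
    unfold R at hR ⊢
    rw [sum_range_succ]
    linarith
  have hS2 : D.S (i + 1) ≤ 2 * L := by linarith
  have hR2 : D.R (i + 1) ≤ 4 * κ * L := by nlinarith
  have hnx := D.nx i
  rw [D.GG_eq] at hnx
  change L + h ^ (1 + γ) < _ at hnx
  have h7 := D.le_S (i + 1) (D.m (i + 1) + 1)
  have h8 := hG (D.m (i + 1))
  have h9 := D.le_R (i + 1) (D.m (i + 1))
  change lamb a (D.m (i + 1)) ≤ D.lam (i + 1) + D.R (i + 1) at h9
  have h10 : h ^ (1 + γ) ≤ κ * (D.lam (i + 1) + 4 * κ * L + 1) + 2 * L := by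
    have h11 : κ * (lamb a (D.m (i + 1)) + 1) ≤ κ * (D.lam (i + 1) + 4 * κ * L + 1) := by
      apply mul_le_mul_of_nonneg_left _ (by linarith)
      linarith
    linarith
  -- `κ lam' ≥ 100 κ² P - 4 κ² L - κ - 2 L ≥ κ² P (100 - 1)`
  have h12 : κ * (90 * κ * L ^ (1 + γ / 8)) ≤ κ * D.lam (i + 1) := by
    have h13 : 4 * κ ^ 2 * L + κ + 2 * L ≤ 10 * κ ^ 2 * L ^ (1 + γ / 8) := by
      have h14 : L ≤ L ^ (1 + γ / 8) := by
        have : (1 : ℝ) ≤ κ ^ 2 := by nlinarith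
        nlinarith
      have h15 : κ ^ 2 * L ≤ κ ^ 2 * L ^ (1 + γ / 8) := by gcongr
      nlinarith [mul_le_mul_of_nonneg_left hL1 (show (0 : ℝ) ≤ κ ^ 2 by positivity),
        mul_le_mul_of_nonneg_right (show (1 : ℝ) ≤ κ ^ 2 by nlinarith) hLpos.le]
    nlinarith
  have h13 : 90 * κ * L ^ (1 + γ / 8) ≤ D.lam (i + 1) := le_of_mul_le_mul_left h12 (by linarith)
  have h14 : L ≤ L ^ (1 + γ / 8) := by
    have : (1 : ℝ) ≤ κ ^ 2 := by nlinarith
    nlinarith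
  have h15 : 90 * κ * L ≤ D.lam (i + 1) := by
    refine le_trans ?_ h13
    have : 90 * κ * L ≤ 90 * κ * L ^ (1 + γ / 8) := by gcongr
    exact this
  refine ⟨by nlinarith, ?_, ?_, ?_, ?_⟩
  · refine le_trans ?_ h13
    nlinarith
  · nlinarith
  · nlinarith
  · rcases D.up i with h16 | h16
    · -- the next place
      have h17 := lamb_succ_le (D.ok (i + 1)) (D.m i)
      have h18 : lamb (D.c (i + 1)) (D.m i) = L := by
        rw [hLdef]
        unfold lam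
        apply lamb_congr
        intro j hj
        rw [D.upd i, Function.update_of_ne (by omega)]
      have h19 : D.c (i + 1) (D.m i + 1) = D.A i := by rw [D.upd i, Function.update_self]
      rw [h18, h19, ← h16] at h17
      change D.lam (i + 1) ≤ _ at h17
      have : 4 * h + 2 ≤ h ^ (1 + γ) := by
        have : (1 : ℝ) ≤ κ ^ 2 := by nlinarith
        nlinarith
      linarith
    · exact h16

include h0

lemma all (i : ℕ) : L₀ ≤ D.lam i ∧ D.S i ≤ D.lam i ∧ D.R i ≤ D.lam i := by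
  induction i with
  | zero =>
    refine ⟨h0, ?_, ?_⟩
    · simp only [S, range_zero, sum_empty]
      exact D.lam_nonneg 0
    · simp only [R, range_zero, sum_empty]
      exact D.lam_nonneg 0
  | succ i ih =>
    obtain ⟨h1, h2, h3⟩ := ih
    obtain ⟨g1, g2, g3, g4, g5⟩ := D.step hT hκ hγ0 ha hG i h1 h2 h3
    have h4 := D.lam_nonneg i
    have h5 := D.lam_nonneg (i + 1)
    refine ⟨?_, by linarith, g4⟩
    nlinarith [mul_nonneg (show (0 : ℝ) ≤ 40 * κ - 1 by linarith) h4]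

lemma all_step (i : ℕ) : 40 * κ * D.lam i ≤ D.lam (i + 1) ∧ (D.lam i) ^ (1 + γ / 8) ≤ D.lam (i + 1) ∧
      D.S (i + 1) ≤ D.lam (i + 1) / 4 ∧ D.R (i + 1) ≤ D.lam (i + 1) ∧
      D.lam (i + 1) ≤ D.lam i + ((D.lam i) ^ (1 - γ / 2)) ^ (1 + γ) := by
  obtain ⟨h1, h2, h3⟩ := D.all hT hκ hγ0 ha hG h0 i
  exact D.step hT hκ hγ0 ha hG i h1 h2 h3

/-- the scale is controlled by the denominators of `a` -/
lemma lam_le (i : ℕ) : D.lam i ≤ 2 * lamb a (D.m i) := by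
  have h1 := D.le_S i (D.m i)
  change D.lam i ≤ _ at h1
  have h2 : D.S i ≤ D.lam i / 4 := by
    rcases Nat.eq_zero_or_pos i with h | h
    · subst h
      have := D.lam_nonneg 0
      simp only [S, range_zero, sum_empty]
      linarith
    · obtain ⟨j, rfl⟩ : ∃ j, i = j + 1 := ⟨i - 1, by omega⟩
      exact (D.all_step hT hκ hγ0 ha hG h0 j).2.2.1
  have h3 := D.lam_nonneg i
  linarith

/-- exponential growth of the logarithm of the scales -/
lemma log_lam (i : ℕ) : (1 + γ / 8) ^ i ≤ Real.log (D.lam i) := by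
  induction i with
  | zero =>
    have := hT.three
    rw [pow_zero, Real.le_log_iff_exp_le (by linarith)]
    have := Real.exp_one_lt_d9
    linarith
  | succ i ih =>
    obtain ⟨h1, _, _⟩ := D.all hT hκ hγ0 ha hG h0 i
    have h3 := hT.three
    have h2 := (D.all_step hT hκ hγ0 ha hG h0 i).2.1
    have h5 : 0 < (D.lam i) ^ (1 + γ / 8) := Real.rpow_pos_of_pos (by linarith) _
    have h6 := Real.log_le_log h5 h2
    rw [Real.log_rpow (by linarith)] at h6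
    calc (1 + γ / 8) ^ (i + 1) = (1 + γ / 8) * (1 + γ / 8) ^ i := by ring
      _ ≤ (1 + γ / 8) * Real.log (D.lam i) := by gcongr
      _ ≤ _ := h6

end Data

end Pool.Agent.H607.CN
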